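import Pool.Agent.R616.DI.Nce4

/-!
Closed sets with members of cofinally many degrees meet all degrees of a cone; the jump is uniformly
invariant.
-/

set_option autoImplicit false

namespace Pool.Agent.R616.DI

open Nat.Partrec (Code)
open Encodable
open Pool.Agent.H639.LU Pool.Agent.H869R3.FN Pool.Agent.Y579.PP
open Pool.Agent.Helper446.Defs Pool.Agent.Helper446.Oracle

/-- the table of a tree -/
def tab (G : Str → Str) (p : ℕ) : Bool :=
  match (decode p : Option (Str × ℕ)) with
  | none => false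
  | some (σ, n) => (G σ).getD n false

theorem tab_eq (G : Str → Str) (σ : Str) (n : ℕ) : tab G (encode (σ, n)) = (G σ).getD n false := by
  simp [tab, encodek]

theorem br_tab (G : Str → Str) (A : ℕ → Bool) (n : ℕ) (b : Bool) :
    br G A n = b ↔ ∃ σ : Str, σ = seg A σ.length ∧ σ.length = n + 1 ∧
      tab G (encode (σ, n)) = b := by
  constructor
  · intro h
    refine ⟨seg A (n + 1), by rw [seg_len], by rw [seg_len], ?_⟩
    rw [tab_eq]
    exact h
  · rintro ⟨σ, h1, h2, h3⟩
    rw [tab_eq] at h3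
    rw [← h3, h1, h2]
    rfl

theorem br_le (G : Str → Str) (A : ℕ → Bool) (h : le (tab G) A) : le (br G A) A := by
  obtain ⟨h1, h2⟩ := turingReducible_iff.1 h
  have key : ∀ b : Bool, REIn (St A) (fun n => tab G n = b) →
      REIn (St A) (fun n => br G A n = b) := by
    intro b hb
    have e1 : REIn (St A) (fun x : ℕ × Str => x.2 = seg A x.2.length) := by
      rw [K2]
      refine ⟨fun (x : ℕ × Str) τ => x.2 = τ, ?_, fun x => ⟨fun h => ⟨_, h⟩, ?_⟩⟩
      · exact Pool.Agent.Helper446.RE.eq (by fun_prop) (by fun_prop)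
      · rintro ⟨s, hs⟩
        rw [hs, seg_len]
    have e2 : REIn (St A) (fun x : ℕ × Str => x.2.length = x.1 + 1) :=
      REIn.of_re (Pool.Agent.Helper446.RE.eq
        (Computable.list_length.comp Computable.snd) (by fun_prop))
    have e3 : REIn (St A) (fun x : ℕ × Str => tab G (encode (x.2, x.1)) = b) :=
      REIn.comp (S := fun n => tab G n = b) hb (by fun_prop)
    have e4 := REIn.ex (S := fun (n : ℕ) (σ : Str) => σ = seg A σ.length ∧ (σ.length = n + 1 ∧
      tab G (encode (σ, n)) = b)) (REIn.and e1 (REIn.and e2 e3))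
    exact e4.of_eq fun n => (br_tab G A n b).symm
  refine turingReducible_iff.2 ⟨?_, ?_⟩
  · refine (key true (h1.of_eq fun n => ?_)).of_eq fun n => ?_
    · simp [St]
    · simp [St]
  · refine (key false (h2.of_eq fun n => ?_)).of_eq fun n => ?_
    · simp [St]
    · simp [St]

/-- a closed set with members of cofinally many degrees meets all degrees above some degree -/
theorem cone_mem (F : Set (ℕ → Bool)) (hF : Clo F) (hF' : Cof F) :
    ∃ z : ℕ → Bool, ∀ X, le z X → ∃ Y ∈ F, le X Y ∧ le Y X := by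
  obtain ⟨c₀, G, hG⟩ := emb F hF hF'
  obtain ⟨-, B2b, -⟩ := B2 D1 B1
  refine ⟨tab G, fun X hX => ⟨br G X, B2b F c₀ G hG hF ⟨X, rfl⟩, le_br hG.toTr X, br_le G X hX⟩⟩

/-- operations computable on a closed set are computable on a cone, if they are invariant -/
theorem cone_triv {F : Set (ℕ → Bool)} (hF : Clo F) (hF' : Cof F) (G : (ℕ → Bool) → ℕ → Bool)
    (z₀ : ℕ → Bool) (hinv : ∀ X, le z₀ X → ∀ Y, le X Y → le Y X → le (G Y) (G X))
    (h : ∀ Y ∈ F, le (G Y) Y) : ∃ z, ∀ X, le z X → le (G X) X := by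
  obtain ⟨z₁, hz₁⟩ := cone_mem F hF hF'
  obtain ⟨z, ha, hb⟩ := join2 z₀ z₁
  refine ⟨z, fun X hX => ?_⟩
  obtain ⟨Y, hY, h1, h2⟩ := hz₁ X (le_trans' hb hX)
  have h3 : le z₀ Y := le_trans' (le_trans' ha hX) h1
  exact le_trans' (hinv Y h3 X h2 h1) (le_trans' (h Y hY) h2)

theorem clo_univ : Clo (Set.univ : Set (ℕ → Bool)) := fun _ _ => trivial

theorem cof_univ : Cof (Set.univ : Set (ℕ → Bool)) := fun z => ⟨z, trivial, le_refl' z⟩

/-- a program for the jump -/
theorem w_jump : ∃ r : Code, ∀ X : ℕ → Bool, W r X = J X := by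
  obtain ⟨m1, m2, -, -⟩ := N2 N1
  have h1 : Computable (fun p : ℕ × Str =>
      hst (Denumerable.ofNat Code p.1.unpair.1) p.2 p.1.unpair.2) := by
    refine c1.2.2.1.comp (f := fun p : Code × Str × ℕ => hst p.1 p.2.1 p.2.2)
      (g := fun p : ℕ × Str => (Denumerable.ofNat Code p.1.unpair.1, p.2, p.1.unpair.2)) ?_
    exact ((Computable.ofNat Code).comp (q1 Computable.fst)).pair
      (Computable.snd.pair (q2 Computable.fst))
  obtain ⟨r, hr⟩ := w_of_fun h1
  refine ⟨r, fun X => funext fun n => propext ?_⟩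
  rw [hr]
  show (∃ s, hst (Denumerable.ofNat Code n.unpair.1) (seg X s) n.unpair.2 = true) ↔
    W (Denumerable.ofNat Code n.unpair.1) X n.unpair.2
  exact (m1 (Denumerable.ofNat Code n.unpair.1) X n.unpair.2).symm

/-- the jump is uniformly invariant -/
theorem jump_unif (i : Code) : ∃ l : Code, ∀ X Y : ℕ → Bool, Red i X Y →
    Red l (ch (J X)) (ch (J Y)) := by
  obtain ⟨r, hr⟩ := w_jump
  obtain ⟨r', hr'⟩ := w_comp r i
  have hu : Computable (fun n : ℕ => Nat.pair (encode r') n + 1) :=
    (Primrec.succ.comp (Primrec₂.natPair.comp (Primrec.const _) Primrec.id)).to_comp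
  have hδ : Computable (fun p : ℕ × Str => p.2.getD (Nat.pair (encode r') p.1) false) :=
    ((Primrec.list_getD false).to_comp).comp Computable.snd
      ((Primrec₂.natPair.to_comp).comp (Computable.const _) Computable.fst)
  obtain ⟨l, hl⟩ := exists_fun hδ hu
  refine ⟨l, fun X Y h => (hl _ _).2 fun n => ?_⟩
  show ch (J Y) n = (seg (ch (J X)) (Nat.pair (encode r') n + 1)).getD
    (Nat.pair (encode r') n) false
  rw [seg_getD _ _ _ (by omega)]
  have e : J X (Nat.pair (encode r') n) ↔ J Y n := by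
    unfold J
    rw [Nat.unpair_pair]
    simp only [Denumerable.ofNat_encode]
    rw [hr' X Y h n, hr Y]
    rfl
  rw [Bool.eq_iff_iff, ch_true, ch_true]
  exact e.symm

theorem w_le_jump (r : Code) (X : ℕ → Bool) : le (ch (W r X)) (ch (J X)) := by
  refine K4.2.2.2 _ _ (fun n => Nat.pair (encode r) n)
    ((Primrec₂.natPair.comp (Primrec.const _) Primrec.id).to_comp) fun n => ?_
  rw [Bool.eq_iff_iff, ch_true, ch_true]
  unfold J
  rw [Nat.unpair_pair]
  simp only [Denumerable.ofNat_encode]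

end Pool.Agent.R616.DI
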