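import Pool.Agent.R616.DI.Rea

/-!
Symmetric differences of c.e. operators are, up to uniform Turing equivalence, compositions of
c.e. operators.
-/

set_option autoImplicit false

namespace Pool.Agent.R616.DI

open Nat.Partrec (Code)
open Encodable
open Pool.Agent.H639.LU Pool.Agent.H869R3.FN Pool.Agent.Y579.PP
open Pool.Agent.Helper446.Defs Pool.Agent.Helper446.Oracle

/-- the number of the programs of the list which have enumerated `n` -/
def num (l : List Code) (σ : Str) (n : ℕ) : ℕ := (l.filter (fun r => hst r σ n)).length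

open Classical in
/-- the number of the sets `W r X`, `r` in the list, which contain `n` -/
noncomputable def numW (l : List Code) (X : ℕ → Bool) (n : ℕ) : ℕ :=
  (l.filter (fun r => decide (W r X n))).length

/-- the symmetric difference of the sets `W r X`, `r` in the list -/
noncomputable def sdf (l : List Code) (X : ℕ → Bool) (n : ℕ) : Bool := decide (numW l X n % 2 = 1)

theorem num_cons (r : Code) (l : List Code) (σ : Str) (n : ℕ) :
    num (r :: l) σ n = (bif hst r σ n then 1 else 0) + num l σ n := by
  unfold num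
  cases h : hst r σ n <;> simp [List.filter_cons, h]
  omega

theorem numW_cons (r : Code) (l : List Code) (X : ℕ → Bool) (n : ℕ) :
    numW (r :: l) X n = (ch (W r X) n).toNat + numW l X n := by
  classical
  unfold numW ch
  by_cases h : W r X n
  · simp [List.filter_cons, h]
    omega
  · simp [List.filter_cons, h]

theorem num_comp : ∀ l : List Code, Computable (fun p : Str × ℕ => num l p.1 p.2) := by
  intro l
  induction l with
  | nil => exact Computable.const 0
  | cons r l ih =>
    have h1 : Computable (fun p : Str × ℕ => hst r p.1 p.2) :=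
      c1.2.2.1.comp (f := fun p : Code × Str × ℕ => hst p.1 p.2.1 p.2.2)
        (g := fun p : Str × ℕ => (r, p.1, p.2)) (by fun_prop)
    have h2 : Computable (fun p : Str × ℕ => (bif hst r p.1 p.2 then 1 else 0 : ℕ)) :=
      Computable.cond h1 (Computable.const 1) (Computable.const 0)
    refine ((Primrec.nat_add.to_comp).comp h2 ih).of_eq fun p => ?_
    rw [num_cons]

theorem num_mono (l : List Code) {σ τ : Str} (h : σ <+: τ) (n : ℕ) : num l σ n ≤ num l τ n := by
  obtain ⟨m1, m2, -, -⟩ := N2 N1
  induction l with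
  | nil => exact le_rfl
  | cons r l ih =>
    rw [num_cons, num_cons]
    cases h1 : hst r σ n with
    | true =>
      rw [m2 r σ τ n h h1]
      omega
    | false =>
      cases h2 : hst r τ n <;> simp <;> omega

theorem num_le (l : List Code) (X : ℕ → Bool) (s n : ℕ) : num l (seg X s) n ≤ numW l X n := by
  obtain ⟨m1, m2, -, -⟩ := N2 N1
  induction l with
  | nil => exact le_rfl
  | cons r l ih =>
    rw [num_cons, numW_cons]
    cases h1 : hst r (seg X s) n with
    | true =>
      have h2 : W r X n := (m1 r X n).2 ⟨s, h1⟩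
      have h3 : (ch (W r X) n).toNat = 1 := by unfold ch; simp [h2]
      rw [h3]
      simp only [cond_true]
      omega
    | false =>
      simp only [cond_false]
      omega

theorem num_lim (l : List Code) (X : ℕ → Bool) (n : ℕ) :
    ∃ s₀, ∀ s, s₀ ≤ s → num l (seg X s) n = numW l X n := by
  obtain ⟨m1, m2, -, -⟩ := N2 N1
  induction l with
  | nil => exact ⟨0, fun _ _ => rfl⟩
  | cons r l ih =>
    obtain ⟨s₁, h1⟩ := ih
    by_cases hW : W r X n
    · obtain ⟨t, ht⟩ := (m1 r X n).1 hW
      refine ⟨max s₁ t, fun s hs => ?_⟩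
      rw [num_cons, numW_cons, h1 s ((le_max_left _ _).trans hs)]
      have h3 : (ch (W r X) n).toNat = 1 := by unfold ch; simp [hW]
      rw [h3, m2 r _ _ n (G2_seg_le X ((le_max_right _ _).trans hs)) ht]
      rfl
    · refine ⟨s₁, fun s hs => ?_⟩
      rw [num_cons, numW_cons, h1 s hs]
      have h3 : (ch (W r X) n).toNat = 0 := by unfold ch; simp [hW]
      have h4 : hst r (seg X s) n = false := by
        cases h5 : hst r (seg X s) n with
        | true => exact absurd ((m1 r X n).2 ⟨s, h5⟩) hW
        | false => rfl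
      rw [h3, h4]
      rfl

theorem numW_le (l : List Code) (X : ℕ → Bool) (n : ℕ) : numW l X n ≤ l.length := by
  unfold numW
  exact List.length_filter_le _ _

/-- the auxiliary sets -/
noncomputable def EE (l : List Code) (c : ℕ) (X : ℕ → Bool) (p : ℕ) : Bool :=
  decide (c ≤ num l (seg X p.unpair.2) p.unpair.1) &&
    (xor (sdf l X p.unpair.1) (decide (c % 2 = 1)))

theorem sdf_eq (l : List Code) (X : ℕ → Bool) (n c : ℕ) (h : numW l X n = c) :
    sdf l X n = decide (c % 2 = 1) := by
  unfold sdf
  rw [h]

theorem par_succ (c : ℕ) : decide ((c + 1) % 2 = 1) = !(decide (c % 2 = 1)) := by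
  rcases Nat.mod_two_eq_zero_or_one c with h | h
  · have h2 : (c + 1) % 2 = 1 := by omega
    simp [h, h2]
  · have h2 : (c + 1) % 2 = 0 := by omega
    simp [h, h2]

/-- `EE c` is enumerable in `X ⊕ EE (c + 1)` -/
theorem EE_step (l : List Code) (c : ℕ) (X : ℕ → Bool) (p : ℕ) :
    EE l c X p = true ↔ c ≤ num l (seg X p.unpair.2) p.unpair.1 ∧ ∃ t, p.unpair.2 ≤ t ∧
      c + 1 ≤ num l (seg X t) p.unpair.1 ∧ EE l (c + 1) X (Nat.pair p.unpair.1 t) = false := by
  set x := p.unpair.1 with hx
  set s := p.unpair.2 with hs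
  have e1 : EE l c X p = true ↔ c ≤ num l (seg X s) x ∧ sdf l X x ≠ decide (c % 2 = 1) := by
    unfold EE
    rw [← hx, ← hs]
    cases h1 : sdf l X x <;> cases h2 : decide (c % 2 = 1) <;> simp
  have e2 : ∀ t, EE l (c + 1) X (Nat.pair x t) = false ↔
      (c + 1 ≤ num l (seg X t) x → sdf l X x = decide ((c + 1) % 2 = 1)) := by
    intro t
    unfold EE
    rw [Nat.unpair_pair]
    by_cases g : c + 1 ≤ num l (seg X t) x
    · simp only [g, decide_true, Bool.true_and, true_imp_iff]
      cases h1 : sdf l X x <;> cases h2 : decide ((c + 1) % 2 = 1) <;> simp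
    · simp only [g, decide_false, Bool.false_and, false_imp_iff]
  rw [e1]
  constructor
  · rintro ⟨h1, h2⟩
    refine ⟨h1, ?_⟩
    obtain ⟨s₀, h0⟩ := num_lim l X x
    have h3 : num l (seg X (max s s₀)) x = numW l X x := h0 _ (le_max_right _ _)
    have h4 : numW l X x ≠ c := fun h => h2 (sdf_eq l X x c h)
    have h5 := (num_mono l (G2_seg_le X (le_max_left s s₀)) x)
    refine ⟨max s s₀, le_max_left _ _, by omega, ?_⟩
    rw [e2]
    intro _
    rw [par_succ]
    cases h6 : sdf l X x <;> cases h7 : decide (c % 2 = 1) <;> simp_all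
  · rintro ⟨h1, t, ht, h2, h3⟩
    refine ⟨h1, ?_⟩
    rw [(e2 t).1 h3 h2, par_succ]
    cases h7 : decide (c % 2 = 1) <;> simp

theorem rea_append : ∀ (l : List Code) (r : Code) (X : ℕ → Bool),
    rea (l ++ [r]) X = jn 0 (rea l X) (ch (W r (rea l X))) := by
  intro l
  induction l with
  | nil => intro r X; rfl
  | cons a l ih => intro r X; exact ih r _

theorem ch_eq {P : ℕ → Prop} {f : ℕ → Bool} (h : ∀ n, P n ↔ f n = true) : ch P = f := by
  classical
  funext n
  unfold ch
  by_cases h1 : f n = true
  · rw [h1]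
    simp [(h n).2 h1]
  · have h2 : ¬ P n := fun hP => h1 ((h n).1 hP)
    have h3 : f n = false := by simpa using h1
    rw [h3]
    simp [h2]

end Pool.Agent.R616.DI
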