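import Pool.Agent.R616.DI.Nce

/-!
The enumeration of the auxiliary sets.
-/

set_option autoImplicit false

namespace Pool.Agent.R616.DI

open Nat.Partrec (Code)
open Encodable
open Pool.Agent.H639.LU Pool.Agent.H869R3.FN Pool.Agent.Y579.PP
open Pool.Agent.Helper446.Defs Pool.Agent.Helper446.Oracle

/-- the digits of `σ` in the even places -/
def ev (σ : Str) : Str := (List.range (σ.length / 2)).map (fun i => σ.getD (2 * i) false)

theorem ev_comp : Computable ev := by
  have h1 : Primrec ev := by
    refine Primrec.list_map (f := fun σ : Str => List.range (σ.length / 2))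
      (g := fun (σ : Str) (i : ℕ) => σ.getD (2 * i) false) ?_ ?_
    · exact Primrec.list_range.comp (Primrec.nat_div.comp Primrec.list_length (Primrec.const 2))
    · exact (Primrec.list_getD false).comp Primrec.fst
        (Primrec.nat_mul.comp (Primrec.const 2) Primrec.snd)
  exact h1.to_comp

theorem ev_seg (X E : ℕ → Bool) (s : ℕ) : ev (seg (jn 0 X E) s) = seg X (s / 2) := by
  unfold ev
  rw [seg_len]
  conv_rhs => unfold seg
  apply List.map_congr_left
  intro i hi
  rw [List.mem_range] at hi
  rw [seg_getD (jn 0 X E) s (2 * i) (by omega), jn_even]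

/-- the test: `n` is the argument, `σ` an initial segment of `X ⊕ E`, `t` a number, `pn` the number
of the pair of the first component of `n` and `t` -/
def tst (l : List Code) (c : ℕ) (n : ℕ) (σ : Str) (t : ℕ) (pn : ℕ) : Bool :=
  decide (c ≤ num l ((ev σ).take n.unpair.2) n.unpair.1) &&
    (decide (n.unpair.2 ≤ t) &&
    (decide (t ≤ (ev σ).length) &&
    (decide (c + 1 ≤ num l ((ev σ).take t) n.unpair.1) &&
    (decide (2 * pn + 1 < σ.length) && !(σ.getD (2 * pn + 1) true)))))

theorem le_comp {α : Type} [Primcodable α] {f g : α → ℕ} (hf : Computable f)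
    (hg : Computable g) : Computable (fun p => decide (f p ≤ g p)) :=
  (Primrec.nat_le.decide.to_comp).comp hf hg

theorem lt_comp {α : Type} [Primcodable α] {f g : α → ℕ} (hf : Computable f)
    (hg : Computable g) : Computable (fun p => decide (f p < g p)) :=
  (Primrec.nat_lt.decide.to_comp).comp hf hg

theorem and_comp {α : Type} [Primcodable α] {f g : α → Bool} (hf : Computable f)
    (hg : Computable g) : Computable (fun p => (f p && g p)) :=
  Primrec.and.to_comp.comp hf hg


section
variable (l : List Code) (c : ℕ) {α : Type} [Primcodable α] {n t pn : α → ℕ} {σ : α → Str}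

theorem q1 (hn : Computable n) : Computable (fun a => (n a).unpair.1) :=
  Computable.fst.comp (Computable.unpair.comp hn)

theorem q2 (hn : Computable n) : Computable (fun a => (n a).unpair.2) :=
  Computable.snd.comp (Computable.unpair.comp hn)

theorem q7 (hn : Computable n) (ht : Computable t) (hσ : Computable σ) :
    Computable (fun a => num l ((ev (σ a)).take (t a)) (n a)) := by
  have a5 : Computable (fun a => ev (σ a)) := ev_comp.comp hσ
  have a6 : Computable (fun a => (ev (σ a)).take (t a)) := Primrec.list_take.to_comp.comp ht a5
  exact (num_comp l).comp (a6.pair hn)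

theorem q9 (hp : Computable pn) : Computable (fun a => 2 * pn a + 1) := by
  have h : Primrec (fun m : ℕ => 2 * m + 1) :=
    Primrec.succ.comp (Primrec.nat_mul.comp (Primrec.const 2) Primrec.id)
  exact h.to_comp.comp hp

theorem q10 (hp : Computable pn) (hσ : Computable σ) :
    Computable (fun a => !((σ a).getD (pn a) true)) := by
  have a10 : Computable (fun a => (σ a).getD (pn a) true) :=
    ((Primrec.list_getD true).to_comp).comp hσ hp
  exact Primrec.not.to_comp.comp a10

theorem q6 (hσ : Computable σ) : Computable (fun a => (ev (σ a)).length) :=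
  Computable.list_length.comp (ev_comp.comp hσ)

theorem tst_comp (hn : Computable n) (hσ : Computable σ) (ht : Computable t)
    (hp : Computable pn) : Computable (fun a => tst l c (n a) (σ a) (t a) (pn a)) := by
  have b1 := le_comp (Computable.const c) (q7 l (q1 hn) (q2 hn) hσ)
  have b2 := le_comp (q2 hn) ht
  have b3 := le_comp ht (q6 hσ)
  have b4 := le_comp (Computable.const (c + 1)) (q7 l (q1 hn) ht hσ)
  have b5 := lt_comp (q9 hp) (Computable.list_length.comp hσ)
  have b6 := q10 (q9 hp) hσ
  have b := and_comp b1 (and_comp b2 (and_comp b3 (and_comp b4 (and_comp b5 b6))))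
  exact b.of_eq fun a => by unfold tst; rfl

end

end Pool.Agent.R616.DI
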