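import Pool.Agent.R616.DI.Nce2

/-!
Symmetric differences of c.e. operators as compositions of c.e. operators.
-/

set_option autoImplicit false

namespace Pool.Agent.R616.DI

open Nat.Partrec (Code)
open Encodable
open Pool.Agent.H639.LU Pool.Agent.H869R3.FN Pool.Agent.Y579.PP
open Pool.Agent.Helper446.Defs Pool.Agent.Helper446.Oracle

theorem tst_iff (l : List Code) (c n : ℕ) (X E : ℕ → Bool) (q t pn : ℕ) :
    tst l c n (seg (jn 0 X E) q) t pn = true ↔
      c ≤ num l ((seg X (q / 2)).take n.unpair.2) n.unpair.1 ∧ n.unpair.2 ≤ t ∧ t ≤ q / 2 ∧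
      c + 1 ≤ num l ((seg X (q / 2)).take t) n.unpair.1 ∧ 2 * pn + 1 < q ∧
      (seg (jn 0 X E) q).getD (2 * pn + 1) true = false := by
  unfold tst
  rw [ev_seg, seg_len, seg_len]
  simp only [Bool.and_eq_true, decide_eq_true_eq, Bool.not_eq_true']

theorem getD_odd (X E : ℕ → Bool) (q m : ℕ) (h : 2 * m + 1 < q) (b : Bool) :
    (seg (jn 0 X E) q).getD (2 * m + 1) b = E m := by
  rw [List.getD_eq_getElem?_getD, seg_get, if_pos h, Option.getD_some, jn_odd]

/-- the enumeration of `EE c` from `X ⊕ EE (c + 1)` -/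
theorem EE_code (l : List Code) (c : ℕ) : ∃ r : Code, ∀ X : ℕ → Bool,
    ch (W r (jn 0 X (EE l (c + 1) X))) = EE l c X := by
  have a3 : Computable (fun p : ℕ × Str => p.2.length) :=
    Computable.list_length.comp Computable.snd
  have a4 : Computable (fun p : ℕ × Str => p.2.length.unpair.1) :=
    Computable.fst.comp (Computable.unpair.comp a3)
  have a5 : Computable (fun p : ℕ × Str => Nat.pair p.1.unpair.1 p.2.length.unpair.1) :=
    (Primrec₂.natPair.to_comp).comp (q1 Computable.fst) a4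
  obtain ⟨r, hr⟩ := w_of_fun (tst_comp l c Computable.fst Computable.snd a4 a5)
  refine ⟨r, fun X => ch_eq fun p => ?_⟩
  rw [hr, EE_step]
  constructor
  · rintro ⟨q, hq⟩
    have hq' := (tst_iff l c p X (EE l (c + 1) X) q _ _).1 hq
    rw [seg_len] at hq'
    obtain ⟨h1, h2, h3, h4, h5, h6⟩ := hq'
    rw [getD_odd _ _ _ _ h5] at h6
    rw [take_seg' X (h2.trans h3)] at h1
    rw [take_seg' X h3] at h4
    exact ⟨h1, _, h2, h4, h6⟩
  · rintro ⟨h1, t, h2, h3, h4⟩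
    generalize hm : Nat.pair p.unpair.1 t = m at h4
    obtain ⟨q, h5, h6⟩ : ∃ q, q.unpair.1 = t ∧ 2 * m + 2 * t + 2 ≤ q :=
      ⟨Nat.pair t (2 * m + 2 * t + 2), by rw [Nat.unpair_pair], Nat.right_le_pair _ _⟩
    refine ⟨q, (tst_iff l c p X (EE l (c + 1) X) q _ _).2 ?_⟩
    rw [seg_len, h5, hm]
    have h7 : t ≤ q / 2 := by omega
    have h8 : 2 * m + 1 < q := by omega
    rw [getD_odd _ _ _ _ h8, take_seg' X (h2.trans h7), take_seg' X h7]
    exact ⟨h1, h2, h7, h3, h8, h4⟩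

/-- `EE c` is computed from `X ⊕ sdf l X` -/
theorem EE_back (l : List Code) (c : ℕ) : ∃ b : Code, ∀ X : ℕ → Bool,
    Red b (jn 0 X (sdf l X)) (EE l c X) := by
  have hu : Computable (fun p : ℕ => 2 * p + 2) := by fun_prop
  have b1 : Computable (fun p : ℕ × Str =>
      decide (c ≤ num l ((ev p.2).take p.1.unpair.2) p.1.unpair.1)) :=
    le_comp (Computable.const c) (q7 l (q1 Computable.fst) (q2 Computable.fst) Computable.snd)
  have b2 : Computable (fun p : ℕ × Str => p.2.getD (2 * p.1.unpair.1 + 1) false) :=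
    ((Primrec.list_getD false).to_comp).comp Computable.snd (q9 (q1 Computable.fst))
  have hx : Computable (fun x : Bool => xor x (decide (c % 2 = 1))) :=
    (Primrec.dom_finite _).to_comp
  have b3 : Computable (fun p : ℕ × Str =>
      xor (p.2.getD (2 * p.1.unpair.1 + 1) false) (decide (c % 2 = 1))) := hx.comp b2
  obtain ⟨b, hb⟩ := exists_fun (and_comp b1 b3) hu
  refine ⟨b, fun X => (hb _ _).2 fun p => ?_⟩
  have h1 : p.unpair.1 ≤ p := Nat.unpair_left_le p
  have h2 : p.unpair.2 ≤ p := Nat.unpair_right_le p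
  show EE l c X p = (decide (c ≤ num l ((ev (seg (jn 0 X (sdf l X)) (2 * p + 2))).take
    p.unpair.2) p.unpair.1) &&
      xor ((seg (jn 0 X (sdf l X)) (2 * p + 2)).getD (2 * p.unpair.1 + 1) false)
        (decide (c % 2 = 1)))
  rw [ev_seg, take_seg' X (by omega), seg_getD _ _ _ (by omega), jn_odd]
  rfl

theorem EE_top (l : List Code) (X : ℕ → Bool) (p : ℕ) : EE l (l.length + 1) X p = false := by
  unfold EE
  have h := (num_le l X p.unpair.2 p.unpair.1).trans (numW_le l X p.unpair.1)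
  have h2 : ¬ (l.length + 1 ≤ num l (seg X p.unpair.2) p.unpair.1) := by omega
  simp [h2]

theorem EE_bot (l : List Code) (X : ℕ → Bool) (n : ℕ) :
    EE l 0 X (Nat.pair n 0) = sdf l X n := by
  unfold EE
  rw [Nat.unpair_pair]
  simp

/-- the compositions -/
theorem tower (l : List Code) : ∀ i c : ℕ, c + i = l.length + 1 →
    ∃ (L : List Code) (p q b : Code), ∀ X : ℕ → Bool,
      Red p (rea L X) X ∧ Red q (rea L X) (EE l c X) ∧ Red b (jn 0 X (sdf l X)) (rea L X) := by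
  obtain ⟨κ, -, hκ'⟩ := K7
  obtain ⟨f, hf⟩ := red_fst
  obtain ⟨g, hg⟩ := red_snd
  intro i
  induction i with
  | zero =>
    intro c hc
    obtain ⟨d, hd⟩ := exists_id
    have hu : Computable (fun p : ℕ => p) := Computable.id
    obtain ⟨q, hq⟩ := exists_fun (δ := fun _ => false) (Computable.const false) hu
    refine ⟨[], d, q, f, fun X => ⟨hd X, (hq _ _).2 fun n => ?_, hf X _⟩⟩
    have h : c = l.length + 1 := by omega
    rw [h, EE_top]
  | succ i ih =>
    intro c hc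
    obtain ⟨L, p, q, b, h⟩ := ih (c + 1) (by omega)
    obtain ⟨r, hr⟩ := EE_code l c
    obtain ⟨e, he⟩ := red_join p q
    obtain ⟨r', hr'⟩ := w_comp r e
    obtain ⟨b₀, hb₀⟩ := EE_back l c
    obtain ⟨b', hb'⟩ := red_join b b₀
    have h1 : ∀ X : ℕ → Bool, ch (W r' (rea L X)) = EE l c X := by
      intro X
      rw [← hr X]
      exact ch_congr (hr' _ _ (he _ _ _ (h X).1 (h X).2.1))
    refine ⟨L ++ [r'], κ (f, p), g, b', fun X => ?_⟩
    rw [rea_append, h1 X]
    exact ⟨hκ' _ _ _ _ _ (hf _ _) (h X).1, hg _ _, hb' _ _ _ (h X).2.2 (hb₀ X)⟩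

/-- `X ⊕ sdf l X` is uniformly equivalent to a composition of c.e. operators -/
theorem nce_rea (l : List Code) : ∃ (L : List Code) (e b : Code), ∀ X : ℕ → Bool,
    Red e (rea L X) (jn 0 X (sdf l X)) ∧ Red b (jn 0 X (sdf l X)) (rea L X) := by
  obtain ⟨κ, -, hκ'⟩ := K7
  obtain ⟨L, p, q, b, h⟩ := tower l (l.length + 1) 0 (by omega)
  have hu : Computable (fun n : ℕ => Nat.pair n 0 + 1) :=
    (Primrec.succ.comp (Primrec₂.natPair.comp Primrec.id (Primrec.const 0))).to_comp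
  have hδ : Computable (fun p : ℕ × Str => p.2.getD (Nat.pair p.1 0) false) :=
    ((Primrec.list_getD false).to_comp).comp Computable.snd
      ((Primrec₂.natPair.to_comp).comp Computable.fst (Computable.const 0))
  obtain ⟨s, hs⟩ := exists_fun hδ hu
  have h1 : ∀ X : ℕ → Bool, Red s (EE l 0 X) (sdf l X) := by
    intro X
    refine (hs _ _).2 fun n => ?_
    show sdf l X n = (seg (EE l 0 X) (Nat.pair n 0 + 1)).getD (Nat.pair n 0) false
    rw [seg_getD _ _ _ (by omega), EE_bot]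
  obtain ⟨e, he⟩ := red_join p (κ (q, s))
  exact ⟨L, e, b, fun X => ⟨he _ _ _ (h X).1 (hκ' _ _ _ _ _ (h X).2.1 (h1 X)), (h X).2.2⟩⟩

/-- an arbitrary operation above a symmetric difference of c.e. operators -/
theorem nce_above (l : List Code) (F : Set (ℕ → Bool)) (hF : Clo F) (hF' : Cof F)
    (G : (ℕ → Bool) → ℕ → Bool) (D : Finset Code) (zD : ℕ → Bool)
    (hD : ∀ X ∈ F, le zD X → ∃ d ∈ D, Red d (G X) (jn 0 X (sdf l X)))
    (k : ℕ) (u : Code → Code → Finset Code) (hu : ∀ i j, (u i j).card ≤ k) (z₂ : ℕ → Bool)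
    (hinv : ∀ X ∈ F, le z₂ X → ∀ (i j : Code), ∀ Y ∈ F, Red i X Y → Red j Y X →
      ∃ m ∈ u i j, Red m (G X) (G Y)) :
    (∃ F' : Set (ℕ → Bool), F' ⊆ F ∧ Clo F' ∧ Cof F' ∧
      ∃ c' : Code, ∀ Y ∈ F', Red c' Y (sdf l Y)) ∨
    ∃ z, ∀ X ∈ F, le z X → le (ch (J X)) (G X) := by
  classical
  obtain ⟨κ, -, hκ'⟩ := K7
  obtain ⟨L, e, b, h⟩ := nce_rea l
  obtain ⟨i, hi⟩ := exists_id
  obtain ⟨g, hg⟩ := red_snd
  obtain ⟨f, hf⟩ := red_fst
  rcases rea_step L F hF hF' (fun Y => Y) i (fun Y _ => hi Y) with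
    ⟨F', g1, g2, g3, c', hc'⟩ | ⟨F₁, k1, k2, k3, r', d', hN, hd'⟩
  · left
    exact ⟨F', g1, g2, g3, κ (c', κ (e, g)), fun Y hY =>
      hκ' _ _ _ _ _ (hc' Y hY) (hκ' _ _ _ _ _ (h Y).1 (hg _ _))⟩
  · right
    refine above k1 k2 k3 hN G (D.image fun d => κ (d, κ (b, d'))) zD ?_ ?_ k u hu z₂ hinv
    · intro X hX hz
      obtain ⟨d, -, hd⟩ := hD X hX hz
      exact (le_iff _ _).2 ⟨κ (d, f), hκ' _ _ _ _ _ hd (hf _ _)⟩
    · intro X hX hz
      obtain ⟨d, hdD, hd⟩ := hD X (k1 hX) hz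
      exact ⟨_, Finset.mem_image.2 ⟨d, hdD, rfl⟩,
        hκ' _ _ _ _ _ hd (hκ' _ _ _ _ _ (h X).2 (hd' X hX))⟩

end Pool.Agent.R616.DI
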