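import Pool.Agent.R616.DI.Nce3

/-!
Boolean combinations of c.e. operators are symmetric differences of c.e. operators.
-/

set_option autoImplicit false

namespace Pool.Agent.R616.DI

open Nat.Partrec (Code)
open Encodable
open Pool.Agent.H639.LU Pool.Agent.H869R3.FN Pool.Agent.Y579.PP
open Pool.Agent.Helper446.Defs Pool.Agent.Helper446.Oracle

/-- the Boolean combination `f (W r₁ X, …, W rₙ X)` of the sets c.e. in `X` with the indices in the
list -/
noncomputable def bcomb (f : List Bool → Bool) (l : List Code) (X : ℕ → Bool) (n : ℕ) : Bool :=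
  f (l.map (fun r => ch (W r X) n))

theorem ch_true {P : ℕ → Prop} {n : ℕ} : ch P n = true ↔ P n := by
  unfold ch
  simp

theorem numW_append (l l' : List Code) (X : ℕ → Bool) (n : ℕ) :
    numW (l ++ l') X n = numW l X n + numW l' X n := by
  unfold numW
  rw [List.filter_append, List.length_append]

theorem sdf_append (l l' : List Code) (X : ℕ → Bool) (n : ℕ) :
    sdf (l ++ l') X n = xor (sdf l X n) (sdf l' X n) := by
  unfold sdf
  rw [numW_append]
  rcases Nat.mod_two_eq_zero_or_one (numW l X n) with h | h <;>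
    rcases Nat.mod_two_eq_zero_or_one (numW l' X n) with h' | h'
  · have : (numW l X n + numW l' X n) % 2 = 0 := by omega
    simp [h, h', this]
  · have : (numW l X n + numW l' X n) % 2 = 1 := by omega
    simp [h, h', this]
  · have : (numW l X n + numW l' X n) % 2 = 1 := by omega
    simp [h, h', this]
  · have : (numW l X n + numW l' X n) % 2 = 0 := by omega
    simp [h, h', this]

theorem sdf_nil (X : ℕ → Bool) (n : ℕ) : sdf [] X n = false := by
  unfold sdf numW
  simp

theorem sdf_one (r : Code) (X : ℕ → Bool) : sdf [r] X = ch (W r X) := by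
  funext n
  unfold sdf
  rw [numW_cons]
  have h : numW [] X n = 0 := rfl
  rw [h]
  cases ch (W r X) n <;> simp

theorem w_and (r r' : Code) : ∃ r'' : Code, ∀ (X : ℕ → Bool) (n : ℕ),
    W r'' X n ↔ W r X n ∧ W r' X n := by
  obtain ⟨m1, m2, -, -⟩ := N2 N1
  have h1 : ∀ r : Code, Computable (fun p : ℕ × Str => hst r p.2 p.1) := fun r =>
    c1.2.2.1.comp (f := fun p : Code × Str × ℕ => hst p.1 p.2.1 p.2.2)
      (g := fun p : ℕ × Str => (r, p.2, p.1)) (by fun_prop)
  obtain ⟨r'', h⟩ := w_of_fun (and_comp (h1 r) (h1 r'))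
  refine ⟨r'', fun X n => ?_⟩
  rw [h, m1, m1]
  constructor
  · rintro ⟨s, hs⟩
    simp only [Bool.and_eq_true] at hs
    exact ⟨⟨s, hs.1⟩, ⟨s, hs.2⟩⟩
  · rintro ⟨⟨s, hs⟩, ⟨t, ht⟩⟩
    refine ⟨max s t, ?_⟩
    simp only [Bool.and_eq_true]
    exact ⟨m2 r _ _ n (G2_seg_le X (le_max_left s t)) hs,
      m2 r' _ _ n (G2_seg_le X (le_max_right s t)) ht⟩

theorem w_all : ∃ r : Code, ∀ (X : ℕ → Bool) (n : ℕ), W r X n := by
  obtain ⟨r, h⟩ := w_of_fun (Computable.const true : Computable (fun _ : ℕ × Str => true))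
  exact ⟨r, fun X n => (h X n).2 ⟨0, rfl⟩⟩

theorem sdf_and (r : Code) (l : List Code) : ∃ l' : List Code, ∀ (X : ℕ → Bool) (n : ℕ),
    sdf l' X n = (ch (W r X) n && sdf l X n) := by
  induction l with
  | nil => exact ⟨[], fun X n => by rw [sdf_nil, Bool.and_false]⟩
  | cons a l ih =>
    obtain ⟨l', h⟩ := ih
    obtain ⟨b, hb⟩ := w_and r a
    refine ⟨[b] ++ l', fun X n => ?_⟩
    have e : a :: l = [a] ++ l := rfl
    rw [e, sdf_append, sdf_append, h, sdf_one, sdf_one]
    have h2 : ch (W b X) n = (ch (W r X) n && ch (W a X) n) := by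
      rw [Bool.eq_iff_iff, Bool.and_eq_true, ch_true, ch_true, ch_true]
      exact hb X n
    rw [h2]
    cases ch (W r X) n <;> cases ch (W a X) n <;> cases sdf l X n <;> rfl

/-- Boolean combinations are symmetric differences -/
theorem bcomb_sdf (l : List Code) : ∀ f : List Bool → Bool, ∃ l' : List Code,
    ∀ X : ℕ → Bool, bcomb f l X = sdf l' X := by
  induction l with
  | nil =>
    intro f
    cases h : f [] with
    | false =>
      refine ⟨[], fun X => funext fun n => ?_⟩
      rw [sdf_nil]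
      exact h
    | true =>
      obtain ⟨r, hr⟩ := w_all
      refine ⟨[r], fun X => funext fun n => ?_⟩
      rw [sdf_one, ch_true.2 (hr X n)]
      exact h
  | cons r l ih =>
    intro f
    obtain ⟨l₀, h0⟩ := ih (fun v => f (false :: v))
    obtain ⟨l₁, h1⟩ := ih (fun v => xor (f (false :: v)) (f (true :: v)))
    obtain ⟨l₂, h2⟩ := sdf_and r l₁
    refine ⟨l₀ ++ l₂, fun X => funext fun n => ?_⟩
    rw [sdf_append, h2, ← h0, ← h1]
    unfold bcomb
    rw [List.map_cons]
    cases ch (W r X) n <;> simp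

end Pool.Agent.R616.DI
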