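import Pool.Agent.R616.DI.Loc
import Pool.Agent.H639.LU.Final3

/-!
Operators above a c.e. operator, and compositions of c.e. operators.
-/

set_option autoImplicit false

namespace Pool.Agent.R616.DI

open Nat.Partrec (Code)
open Encodable
open Pool.Agent.H639.LU Pool.Agent.H869R3.FN Pool.Agent.Y579.PP
open Pool.Agent.Helper446.Defs Pool.Agent.Helper446.Oracle

/-- `rea [r₁, …, rₙ] X` is `X ⊕ W r₁ X ⊕ W r₂ (X ⊕ W r₁ X) ⊕ …` -/
noncomputable def rea : List Code → (ℕ → Bool) → ℕ → Bool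
  | [], X => X
  | r :: l, X => rea l (jn 0 X (ch (W r X)))

theorem nt_of {r : Code} {F : Set (ℕ → Bool)} {z₀ : ℕ → Bool}
    (h : ∀ X ∈ F, le z₀ X → ¬ le (ch (W r X)) X) : NT r F := by
  intro F' h1 h2 h3
  by_contra hn
  push Not at hn
  obtain ⟨F'', g1, g2, g3, c, hc⟩ := uniform r F' h2 h3 hn
  obtain ⟨Y, hY, hzY⟩ := g3 z₀
  exact h Y (h1 (g1 hY)) hzY ((le_iff _ _).2 ⟨c, hc Y hY⟩)

/-- an arbitrary operation `G` above a c.e. operator -/
theorem above {r : Code} {F F₁ : Set (ℕ → Bool)} (hF₁ : F₁ ⊆ F) (hC : Clo F₁) (hC' : Cof F₁)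
    (hN : NT r F₁) (G : (ℕ → Bool) → ℕ → Bool) (D : Finset Code) (zD : ℕ → Bool)
    (hGX : ∀ X ∈ F, le zD X → le X (G X))
    (hD : ∀ X ∈ F₁, le zD X → ∃ d ∈ D, Red d (G X) (ch (W r X)))
    (k : ℕ) (u : Code → Code → Finset Code) (hu : ∀ i j, (u i j).card ≤ k) (z₂ : ℕ → Bool)
    (hinv : ∀ X ∈ F, le z₂ X → ∀ (i j : Code), ∀ Y ∈ F, Red i X Y → Red j Y X →
      ∃ l ∈ u i j, Red l (G X) (G Y)) :
    ∃ z, ∀ X ∈ F, le z X → le (ch (J X)) (G X) := by
  classical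
  obtain ⟨κ, -, hκ'⟩ := K7
  obtain ⟨z₁, hz₁⟩ := localF r F₁ hC hC' hN (k * D.card)
  obtain ⟨z₃, h3a, h3b⟩ := join2 z₂ zD
  set u' : Code → Code → Finset Code := fun i j => ((u i j) ×ˢ D).image (fun q => κ (q.1, q.2))
    with hu'
  refine ⟨mu3 u' z₁ z₃, fun X hXF hX => ?_⟩
  have h3 : le z₃ X := le_trans' (K4.2.2.2 (mu3 u' z₁ z₃) z₃
    (fun n => encode ((2, (Code.zero, Code.zero, Code.zero), n) :
      ℕ × (Code × Code × Code) × ℕ)) (by fun_prop) (fun n => by rw [mu3_2])) hX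
  have h1 : le z₁ X := le_trans' (K4.2.2.2 (mu3 u' z₁ z₃) z₁
    (fun n => encode ((1, (Code.zero, Code.zero, Code.zero), n) :
      ℕ × (Code × Code × Code) × ℕ)) (by fun_prop) (fun n => by rw [mu3_1])) hX
  have h2 : le z₂ X := le_trans' h3a h3
  have hDX : le zD X := le_trans' h3b h3
  have hXV := hGX X hXF hDX
  set V := G X with hV
  have hmu : REIn (St V) (fun n => n ∈ St (mu3 u' z₁ z₃)) :=
    (turingReducible_iff.1 (le_trans' hX hXV)).1
  have hS : REIn (St V) (fun n : ℕ => ∃ q : Code × Code × Code, encode q = n ∧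
      q.2.2 ∈ u' q.1 q.2.1) := by
    refine REIn.ex (S := fun (n : ℕ) (q : Code × Code × Code) => encode q = n ∧
      q.2.2 ∈ u' q.1 q.2.1) (REIn.and ?_ ?_)
    · exact REIn.of_re (Pool.Agent.Helper446.RE.eq (by fun_prop) (by fun_prop))
    · have h4 : REIn (St V) (fun x : ℕ × (Code × Code × Code) =>
          encode ((0, x.2, 0) : ℕ × (Code × Code × Code) × ℕ) ∈ St (mu3 u' z₁ z₃)) :=
        REIn.comp (S := fun n => n ∈ St (mu3 u' z₁ z₃)) hmu (by fun_prop)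
      refine h4.of_eq fun x => ?_
      obtain ⟨x1, i, j, l⟩ := x
      change mu3 u' z₁ z₃ _ = true ↔ _
      rw [mu3_u]
  obtain ⟨e, he⟩ := K10 V _ hS
  have he' : ∀ i j l : Code, W e V (encode (i, j, l)) ↔ l ∈ u' i j := by
    intro i j l
    rw [← he]
    constructor
    · rintro ⟨q, hq, hl⟩
      have : q = (i, j, l) := encode_injective hq
      subst this
      exact hl
    · intro hl
      exact ⟨(i, j, l), rfl, hl⟩
  refine hz₁ X h1 V hXV e ?_ ?_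
  · intro i j
    have h5 : {l : Code | W e V (encode (i, j, l))} = ↑(u' i j) := by
      ext l
      simp only [Set.mem_ofPred_eq, Finset.mem_coe]
      exact he' i j l
    rw [h5, Set.encard_coe_eq_coe_finsetCard]
    have h6 : (u' i j).card ≤ k * D.card := by
      refine Finset.card_image_le.trans ?_
      rw [Finset.card_product]
      exact Nat.mul_le_mul (hu i j) le_rfl
    exact_mod_cast h6
  · intro i j Y hYF hi hj
    obtain ⟨l, hl, hlr⟩ := hinv X hXF h2 i j Y (hF₁ hYF) hi hj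
    have hzY : le zD Y := le_trans' hDX ((le_iff Y X).2 ⟨j, hj⟩)
    obtain ⟨d, hd, hdr⟩ := hD Y hYF hzY
    refine ⟨κ (l, d), (he' i j _).2 ?_, hκ' _ _ _ _ _ hlr hdr⟩
    rw [hu', Finset.mem_image]
    exact ⟨(l, d), Finset.mem_product.2 ⟨hl, hd⟩, rfl⟩

theorem rea_back : ∀ l : List Code, ∃ d : Code, ∀ Z : ℕ → Bool, Red d (rea l Z) Z := by
  obtain ⟨κ, -, hκ'⟩ := K7
  obtain ⟨p, hp⟩ := red_fst
  intro l
  induction l with
  | nil => exact exists_id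
  | cons r l ih =>
    obtain ⟨d, hd⟩ := ih
    exact ⟨κ (d, p), fun Z => hκ' _ _ _ _ _ (hd _) (hp _ _)⟩

theorem rea_step : ∀ (l : List Code) (F : Set (ℕ → Bool)), Clo F → Cof F →
    ∀ (H : (ℕ → Bool) → ℕ → Bool) (c : Code), (∀ Y ∈ F, Red c Y (H Y)) →
    (∃ F' : Set (ℕ → Bool), F' ⊆ F ∧ Clo F' ∧ Cof F' ∧
      ∃ c' : Code, ∀ Y ∈ F', Red c' Y (rea l (H Y))) ∨
    (∃ F' : Set (ℕ → Bool), F' ⊆ F ∧ Clo F' ∧ Cof F' ∧ ∃ r' d : Code, NT r' F' ∧
      ∀ Y ∈ F', Red d (rea l (H Y)) (ch (W r' Y))) := by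
  obtain ⟨κ, -, hκ'⟩ := K7
  intro l
  induction l with
  | nil =>
    intro F hF hF' H c hc
    exact Or.inl ⟨F, fun _ h => h, hF, hF', c, hc⟩
  | cons r l ih =>
    intro F hF hF' H c hc
    obtain ⟨r', hr'⟩ := w_comp r c
    have hW : ∀ Y ∈ F, ch (W r' Y) = ch (W r (H Y)) := fun Y hY => ch_congr (hr' Y _ (hc Y hY))
    rcases nt_or r' F with hN | ⟨F₁, g1, g2, g3, c₁, hc₁⟩
    · right
      obtain ⟨d₀, hd₀⟩ := rea_back l
      obtain ⟨p, hp⟩ := red_snd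
      refine ⟨F, fun _ h => h, hF, hF', r', κ (d₀, p), hN, fun Y hY => ?_⟩
      rw [hW Y hY]
      exact hκ' _ _ _ _ _ (hd₀ _) (hp _ _)
    · obtain ⟨e, he⟩ := red_join c c₁
      have h5 : ∀ Y ∈ F₁, Red e Y (jn 0 (H Y) (ch (W r (H Y)))) := by
        intro Y hY
        refine he Y _ _ (hc Y (g1 hY)) ?_
        rw [← hW Y (g1 hY)]
        exact hc₁ Y hY
      rcases ih F₁ g2 g3 (fun Y => jn 0 (H Y) (ch (W r (H Y)))) e h5 with
        ⟨F', k1, k2, k3, k4⟩ | ⟨F', k1, k2, k3, k4⟩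
      · exact Or.inl ⟨F', k1.trans g1, k2, k3, k4⟩
      · exact Or.inr ⟨F', k1.trans g1, k2, k3, k4⟩

/-- the dichotomy for boundedly uniform REA operators on closed sets -/
theorem rea_dich (l : List Code) (F : Set (ℕ → Bool)) (hF : Clo F) (hF' : Cof F)
    (k : ℕ) (u : Code → Code → Finset Code) (hu : ∀ i j, (u i j).card ≤ k) (z₂ : ℕ → Bool)
    (hinv : ∀ X ∈ F, le z₂ X → ∀ (i j : Code), ∀ Y ∈ F, Red i X Y → Red j Y X →
      ∃ m ∈ u i j, Red m (rea l X) (rea l Y)) :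
    (∃ F' : Set (ℕ → Bool), F' ⊆ F ∧ Clo F' ∧ Cof F' ∧
      ∃ c' : Code, ∀ Y ∈ F', Red c' Y (rea l Y)) ∨
    ∃ z, ∀ X ∈ F, le z X → le (ch (J X)) (rea l X) := by
  obtain ⟨d, hd⟩ := exists_id
  obtain ⟨b, hb⟩ := rea_back l
  rcases rea_step l F hF hF' (fun Y => Y) d (fun Y _ => hd Y) with
    h | ⟨F₁, k1, k2, k3, r', d', hN, hd'⟩
  · exact Or.inl h
  · right
    exact above k1 k2 k3 hN (rea l) {d'} (fun _ => false)
      (fun X _ _ => (le_iff _ _).2 ⟨b, hb X⟩)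
      (fun X hX _ => ⟨d', Finset.mem_singleton_self _, hd' X hX⟩) k u hu z₂ hinv

/-- countably many oracles below one -/
theorem join_all (z : Code → Code → ℕ → Bool) : ∃ y : ℕ → Bool, ∀ i j, le (z i j) y := by
  refine ⟨fun p => match (decode p : Option (Code × Code × ℕ)) with
    | none => false
    | some (i, j, n) => z i j n, fun i j => ?_⟩
  exact K4.2.2.2 _ _ (fun n => encode ((i, j, n) : Code × Code × ℕ)) (by fun_prop)
    (fun n => by simp [encodek])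

/-- one pair of programs without `k` candidates -/
theorem no_cand (G : (ℕ → Bool) → ℕ → Bool) (F : Set (ℕ → Bool)) (k : ℕ)
    (h : ∀ (u : Code → Code → Finset Code) (z₂ : ℕ → Bool), (∀ i j, (u i j).card ≤ k) →
      ¬ ∀ X ∈ F, le z₂ X → ∀ (i j : Code), ∀ Y ∈ F, Red i X Y → Red j Y X →
        ∃ m ∈ u i j, Red m (G X) (G Y)) :
    ∃ i j : Code, ∀ L : Finset Code, L.card ≤ k → ∀ z : ℕ → Bool,
      ∃ X ∈ F, ∃ Y ∈ F, le z X ∧ Red i X Y ∧ Red j Y X ∧ ∀ m ∈ L, ¬ Red m (G X) (G Y) := by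
  by_contra hcon
  push Not at hcon
  choose L hL z hz using hcon
  obtain ⟨y, hy⟩ := join_all z
  refine h L y hL fun X hX hyX i j Y hY hi hj => ?_
  exact hz i j X hX Y hY (le_trans' (hy i j) hyX) hi hj

end Pool.Agent.R616.DI
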