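import Pool.Agent.H869R3.FN.LocF
import Pool.Agent.H869R3.FN.Main
import Pool.Agent.Y579.PP.One
import Pool.Agent.Y579.PP.Pair

/-!
Programs: the composition of an enumeration with a reduction, joins and projections.
-/

set_option autoImplicit false

namespace Pool.Agent.R616.DI

open Nat.Partrec (Code)
open Encodable
open Pool.Agent.H639.LU Pool.Agent.H869R3.FN Pool.Agent.Y579.PP
open Pool.Agent.Helper446.Defs Pool.Agent.Helper446.Oracle

theorem c1 : P_C1 := C1
theorem c2 : Computable (fun p : Code × Str => dec p.1 p.2) := (C2 C1).1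

/-- programs from computable functions -/
theorem red_of_fun {f : ℕ × Str → Option ℕ} (hf : Computable f) :
    ∃ c : Code, ∀ X Y : ℕ → Bool, Red c X Y ↔
      ∀ n v, (∃ s, f (n, seg X s) = some v) ↔ v = (Y n).toNat := by
  obtain ⟨c, hc⟩ := K1 f hf
  refine ⟨c, fun X Y => ?_⟩
  unfold Red
  have h1 : ∀ n v s, v ∈ c.eval (encode (n, seg X s)) ↔ f (n, seg X s) = some v := by
    intro n v s
    rw [hc]
    simp
  simp only [h1]

/-- enumerations from computable functions -/
theorem w_of_fun {f : ℕ × Str → Bool} (hf : Computable f) :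
    ∃ r : Code, ∀ (X : ℕ → Bool) (n : ℕ), W r X n ↔ ∃ s, f (n, seg X s) = true := by
  have h0 : Computable (fun p : ℕ × Str => bif f p then some 0 else (none : Option ℕ)) :=
    Computable.cond hf (Computable.const _) (Computable.const _)
  obtain ⟨r, hr⟩ := K1 _ h0
  refine ⟨r, fun X n => ?_⟩
  unfold W
  have h1 : ∀ s, (r.eval (encode (n, seg X s))).Dom ↔ f (n, seg X s) = true := by
    intro s
    rw [hr]
    cases h : f (n, seg X s) <;> simp
  simp only [h1]

theorem red_nxtv {c : Code} {X Y : ℕ → Bool} (h : Red c X Y) (n v : ℕ) :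
    (∃ s, nxtv c (seg X s) n = some v) ↔ v = (Y n).toNat := by
  obtain ⟨n1, n2, n3⟩ := N1
  constructor
  · rintro ⟨s, hs⟩
    obtain ⟨s', -, hs'⟩ := n2 c X n s v hs
    exact (h n v).1 ⟨s', hs'⟩
  · intro hv
    obtain ⟨s, hs⟩ := (h n v).2 hv
    obtain ⟨t, ht⟩ := n3 c X n s (Part.dom_iff_mem.2 ⟨v, hs⟩)
    obtain ⟨w, hw⟩ := Option.isSome_iff_exists.1 ht
    obtain ⟨s', -, hs'⟩ := n2 c X n t w hw
    have h2 := (h n w).1 ⟨s', hs'⟩
    exact ⟨t, by rw [hw, h2, hv]⟩

theorem seg_succ' (X : ℕ → Bool) (s : ℕ) : seg X (s + 1) = seg X s ++ [X s] := G2_seg_succ X s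

/-- the decoded part is an initial segment -/
theorem dec_seg {c : Code} {X Y : ℕ → Bool} (h : Red c X Y) (t : ℕ) :
    ∃ k, dec c (seg X t) = seg Y k := by
  obtain ⟨d1, d2, d3, d4⟩ := D1
  induction t with
  | zero => exact ⟨0, by simp [seg, d1]⟩
  | succ t ih =>
    obtain ⟨k, hk⟩ := ih
    rw [seg_succ', d2, ← seg_succ', hk, seg_len]
    cases h9 : nxtv c (seg X (t + 1)) k with
    | none =>
      have : nxt c (seg X (t + 1)) k = none := by unfold nxt; rw [h9]; rfl
      rw [this]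
      exact ⟨k, by simp⟩
    | some v =>
      have h10 : nxt c (seg X (t + 1)) k = some (v == 1) := by unfold nxt; rw [h9]; rfl
      have h11 := (red_nxtv h k v).1 ⟨_, h9⟩
      have h12 : (v == 1) = Y k := by
        rw [h11]
        cases Y k <;> rfl
      rw [h10, h12]
      exact ⟨k + 1, by rw [seg_succ']; rfl⟩

theorem dec_long {c : Code} {X Y : ℕ → Bool} (h : Red c X Y) (n : ℕ) :
    ∃ t₀, ∀ t, t₀ ≤ t → n ≤ (dec c (seg X t)).length := by
  obtain ⟨d1, d2, d3, d4⟩ := D1
  obtain ⟨n1, n2, n3⟩ := N1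
  induction n with
  | zero => exact ⟨0, fun t _ => Nat.zero_le _⟩
  | succ n ih =>
    obtain ⟨t₀, h0⟩ := ih
    obtain ⟨s, hs⟩ := (h n _).2 rfl
    obtain ⟨t₁, ht₁⟩ := n3 c X n s (Part.dom_iff_mem.2 ⟨_, hs⟩)
    refine ⟨max t₀ t₁ + 1, fun t ht => ?_⟩
    have h5 : dec c (seg X (max t₀ t₁ + 1)) <+: dec c (seg X t) := d3 c _ _ (G2_seg_le X ht)
    refine le_trans ?_ h5.length_le
    have h6 := h0 (max t₀ t₁) (le_max_left _ _)
    rw [seg_succ', d2, ← seg_succ', List.length_append]
    rcases Nat.lt_or_ge n (dec c (seg X (max t₀ t₁))).length with h7 | h7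
    · omega
    · have h8 : (dec c (seg X (max t₀ t₁))).length = n := le_antisymm h7 h6
      rw [h8]
      have h9 : (nxtv c (seg X (max t₀ t₁ + 1)) n).isSome = true :=
        n1 _ _ _ _ (G2_seg_le X ((le_max_right _ _).trans (Nat.le_succ _))) ht₁
      obtain ⟨v, hv⟩ := Option.isSome_iff_exists.1 h9
      have h10 : nxt c (seg X (max t₀ t₁ + 1)) n = some (v == 1) := by unfold nxt; rw [hv]; rfl
      rw [h10]
      simp

/-- composition of an enumeration with a reduction -/
theorem w_comp (r c : Code) : ∃ r' : Code, ∀ X Z : ℕ → Bool, Red c X Z →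
    ∀ n, W r' X n ↔ W r Z n := by
  have hf : Computable (fun p : ℕ × Str => hst r (dec c p.2) p.1) := by
    have h1 : Computable (fun p : ℕ × Str => dec c p.2) :=
      c2.comp (f := fun p : Code × Str => dec p.1 p.2) (g := fun p : ℕ × Str => (c, p.2))
        (by fun_prop)
    exact c1.2.2.1.comp (f := fun p : Code × Str × ℕ => hst p.1 p.2.1 p.2.2)
      (g := fun p : ℕ × Str => (r, dec c p.2, p.1))
      ((Computable.const r).pair (h1.pair Computable.fst))
  obtain ⟨r', hr'⟩ := w_of_fun hf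
  obtain ⟨m1, m2, m3, m4⟩ := N2 N1
  refine ⟨r', fun X Z h n => ?_⟩
  rw [hr', m1]
  constructor
  · rintro ⟨s, hs⟩
    obtain ⟨k, hk⟩ := dec_seg h s
    refine ⟨k, ?_⟩
    rw [← hk]
    exact hs
  · rintro ⟨t, ht⟩
    obtain ⟨t₀, h0⟩ := dec_long h t
    obtain ⟨k, hk⟩ := dec_seg h t₀
    have h1 := h0 t₀ le_rfl
    rw [hk, seg_len] at h1
    refine ⟨t₀, ?_⟩
    show hst r (dec c (seg X t₀)) n = true
    rw [hk]
    exact m2 r _ _ n (G2_seg_le Z h1) ht

theorem ch_congr {P Q : ℕ → Prop} (h : ∀ n, P n ↔ Q n) : ch P = ch Q := by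
  have : P = Q := funext fun n => propext (h n)
  rw [this]

/-- programs for joins -/
theorem red_join (c d : Code) : ∃ e : Code, ∀ X A B : ℕ → Bool, Red c X A → Red d X B →
    Red e X (jn 0 A B) := by
  have m2 : Computable (fun n : ℕ => n % 2) :=
    (Primrec.nat_mod.comp Primrec.id (Primrec.const 2)).to_comp
  have d2 : Computable (fun n : ℕ => n / 2) :=
    (Primrec.nat_div.comp Primrec.id (Primrec.const 2)).to_comp
  have h4 : Computable (fun p : ℕ × Str => decide (p.1 % 2 = 0)) :=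
    (Primrec.eq.decide.to_comp).comp (m2.comp Computable.fst) (Computable.const 0)
  have h5 : ∀ c : Code, Computable (fun p : ℕ × Str => nxtv c p.2 (p.1 / 2)) := fun c =>
    c1.1.comp (f := fun p : Code × Str × ℕ => nxtv p.1 p.2.1 p.2.2)
      (g := fun p : ℕ × Str => (c, p.2, p.1 / 2))
      ((Computable.const c).pair (Computable.snd.pair (d2.comp Computable.fst)))
  obtain ⟨e, he⟩ := red_of_fun (Computable.cond h4 (h5 c) (h5 d))
  refine ⟨e, fun X A B hA hB => (he X _).2 fun n v => ?_⟩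
  unfold jn
  by_cases h : n % 2 = 0
  · have h' : n % 2 = 0 % 2 := by omega
    simp only [h, decide_true, cond_true, Nat.zero_mod, if_true]
    exact red_nxtv hA (n / 2) v
  · simp only [h, decide_false, cond_false, Nat.zero_mod, if_false]
    exact red_nxtv hB (n / 2) v

theorem jn_even (A B : ℕ → Bool) (n : ℕ) : jn 0 A B (2 * n) = A n := by
  unfold jn
  rw [if_pos (by omega)]
  congr 1
  omega

theorem jn_odd (A B : ℕ → Bool) (n : ℕ) : jn 0 A B (2 * n + 1) = B n := by
  unfold jn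
  rw [if_neg (by omega)]
  congr 1
  omega

theorem red_fst : ∃ c : Code, ∀ A B : ℕ → Bool, Red c (jn 0 A B) A := by
  have hu : Computable (fun n : ℕ => 2 * n + 1) := by fun_prop
  have hδ : Computable (fun p : ℕ × Str => p.2.getD (2 * p.1) false) :=
    ((Primrec.list_getD false).to_comp).comp Computable.snd (by fun_prop)
  obtain ⟨c, hc⟩ := exists_fun hδ hu
  refine ⟨c, fun A B => (hc _ _).2 fun n => ?_⟩
  rw [seg_getD _ _ _ (by omega), jn_even]

theorem red_snd : ∃ c : Code, ∀ A B : ℕ → Bool, Red c (jn 0 A B) B := by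
  have hu : Computable (fun n : ℕ => 2 * n + 2) := by fun_prop
  have hδ : Computable (fun p : ℕ × Str => p.2.getD (2 * p.1 + 1) false) :=
    ((Primrec.list_getD false).to_comp).comp Computable.snd (by fun_prop)
  obtain ⟨c, hc⟩ := exists_fun hδ hu
  refine ⟨c, fun A B => (hc _ _).2 fun n => ?_⟩
  rw [seg_getD _ _ _ (by omega), jn_odd]

end Pool.Agent.R616.DI
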