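import Pool.Agent.R616.DI.Red

/-!
A c.e. operator on a closed set with members of cofinally many degrees: either it is computed by
one program on a smaller set of this kind, or there are chains of boundaries of all lengths.
-/

set_option autoImplicit false

namespace Pool.Agent.R616.DI

open Nat.Partrec (Code)
open Encodable
open Pool.Agent.H639.LU Pool.Agent.H869R3.FN Pool.Agent.Y579.PP
open Pool.Agent.Helper446.Defs Pool.Agent.Helper446.Oracle

theorem emb (F : Set (ℕ → Bool)) (hcl : Clo F) (hcof : Cof F) : ∃ c G, Emb F c G := by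
  by_contra hno
  have hne : F.Nonempty := by
    obtain ⟨X, hX, _⟩ := hcof (fun _ => false)
    exact ⟨X, hX⟩
  have h1 : ∀ c : Code, ∃ β : Str → Bool, ∀ x : ℕ → Str, x 0 = [] →
      ¬ ∀ n, Legal F c (x n) (x (n + 1)) (β (x n)) := by
    intro c
    rcases G1 D1 F c hne with ⟨G, hG⟩ | h
    · exact (hno ⟨c, G, hG⟩).elim
    · exact h
  choose β hβ using h1
  exact G2 N1 C1 C2 D1 K2 K3 F β hβ hcof

theorem le_br {c : Code} {G : Str → Str} (hG : Tr c G) (A : ℕ → Bool) : le A (br G A) := by
  unfold le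
  rw [turingReducible_iff]
  refine ⟨B3_reIn B1 D1 C2 K2 c G hG A true, ?_⟩
  refine (B3_reIn B1 D1 C2 K2 c G hG A false).of_eq fun n => ?_
  unfold St
  simp

open Classical in
/-- the table -/
noncomputable def tau (r : Code) (F : Set (ℕ → Bool)) (zn : ℕ → ℕ → Bool) (p : ℕ) : Bool :=
  match (decode p : Option (ℕ × ℕ × ℕ × Str)) with
  | none => false
  | some (0, n, k, _) => zn n k
  | some (_, n, _, s) => decide (∀ Z ∈ F, seg Z s.length = s → ¬ W r Z n)

theorem seg_inj {A B : ℕ → Bool} {k m n : ℕ} (h : seg A k = seg B m) (hn : n < m) :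
    A n = B n := by
  have h1 : k = m := by
    have := congrArg List.length h
    rwa [seg_len, seg_len] at this
  subst h1
  have h2 := congrArg (fun l : List Bool => l[n]?) h
  simp only [seg_get, if_pos hn] at h2
  exact Option.some_inj.1 h2

theorem take_seg' (X : ℕ → Bool) {s t : ℕ} (h : t ≤ s) : (seg X s).take t = seg X t := by
  rw [G2_take_seg, min_eq_left h]

theorem uniform (r : Code) (F : Set (ℕ → Bool)) (hF : Clo F) (hF' : Cof F)
    (hB : ∀ n, ¬ Cof (Bd r F n)) :
    ∃ F' : Set (ℕ → Bool), F' ⊆ F ∧ Clo F' ∧ Cof F' ∧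
      ∃ c : Code, ∀ Y ∈ F', Red c Y (ch (W r Y)) := by
  classical
  have h1 : ∀ n, ∃ z : ℕ → Bool, ∀ X ∈ Bd r F n, ¬ le z X := by
    intro n
    by_contra h
    apply hB n
    intro z
    by_contra h'
    apply h
    exact ⟨z, fun X hX hle => h' ⟨X, hX, hle⟩⟩
  choose zn hzn using h1
  obtain ⟨c₀, G, hG⟩ := emb F hF hF'
  obtain ⟨b1, b2, b3, b4⟩ := B1 D1 c₀ G hG.toTr
  obtain ⟨B2a, B2b, -⟩ := B2 D1 B1
  obtain ⟨-, -, d3, -⟩ := D1
  obtain ⟨m1, m2, -, -⟩ := N2 N1
  have hsub : Rng G ⊆ F := B2b F c₀ G hG hF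
  have hcl : Clo (Rng G) := B2a c₀ G hG.toTr
  set τ := tau r F zn with hτ
  have hτ1 : ∀ n (s : Str), τ (encode ((1 : ℕ), n, (0 : ℕ), s)) = true ↔
      ∀ Z ∈ F, seg Z s.length = s → ¬ W r Z n := by
    intro n s
    simp [hτ, tau, encodek]
  have hτ0 : ∀ n k, τ (encode ((0 : ℕ), n, k, ([] : Str))) = zn n k := by
    intro n k
    simp [hτ, tau, encodek]
  set F' : Set (ℕ → Bool) := {Y | ∃ A : ℕ → Bool, (∀ n, A (2 * n) = τ n) ∧ Y = br G A} with hF'def
  have hF'R : F' ⊆ Rng G := by
    rintro Y ⟨A, -, rfl⟩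
    exact ⟨A, rfl⟩
  have htA : ∀ A : ℕ → Bool, (∀ n, A (2 * n) = τ n) → le τ A := fun A hA =>
    K4.2.2.2 A τ (fun n => 2 * n) (by fun_prop) (fun n => (hA n).symm)
  refine ⟨F', hF'R.trans hsub, ?_, ?_, ?_⟩
  · intro X hX
    have hXR : X ∈ Rng G := hcl X fun t => by
      obtain ⟨X', hX', e⟩ := hX t
      exact ⟨X', hF'R hX', e⟩
    obtain ⟨A, rfl⟩ := hXR
    refine ⟨A, fun n => ?_, rfl⟩
    obtain ⟨X', ⟨A', hA', rfl⟩, e⟩ := hX (G (seg A (2 * n + 1))).length
    obtain ⟨k, hk⟩ := b3 A' (G (seg A (2 * n + 1))).length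
    rw [e, b4 A (2 * n + 1)] at hk
    rw [← hA' n]
    exact (seg_inj hk.symm (Nat.lt_succ_self _)).symm
  · intro z
    obtain ⟨A, hA0, hA1⟩ := joinEven τ z
    refine ⟨br G A, ⟨A, hA0, rfl⟩, ?_⟩
    refine le_trans' ?_ (le_br hG.toTr A)
    exact K4.2.2.2 A z (fun n => 2 * n + 1) (by fun_prop) (fun n => (hA1 n).symm)
  · have e1 : Computable (fun p : ℕ × Str => hst r p.2 p.1) :=
      c1.2.2.1.comp (f := fun p : Code × Str × ℕ => hst p.1 p.2.1 p.2.2)
        (g := fun p : ℕ × Str => (r, p.2, p.1)) (by fun_prop)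
    have e2 : Computable (fun p : ℕ × Str => dec c₀ p.2) :=
      c2.comp (f := fun p : Code × Str => dec p.1 p.2) (g := fun p : ℕ × Str => (c₀, p.2))
        (by fun_prop)
    have e3 : Computable (fun p : ℕ × Str => p.2.take (p.2.length.unpair).1) :=
      Primrec.list_take.to_comp.comp
        (Computable.fst.comp (Computable.unpair.comp (Computable.list_length.comp Computable.snd)))
        Computable.snd
    have e4 : Computable (fun p : ℕ × Str =>
        2 * encode ((1 : ℕ), p.1, (0 : ℕ), p.2.take (p.2.length.unpair).1)) :=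
      (Primrec.nat_mul.to_comp).comp (Computable.const 2) (Computable.encode.comp
        ((Computable.const 1).pair (Computable.fst.pair ((Computable.const 0).pair e3))))
    have e5 : Computable (fun p : ℕ × Str => (dec c₀ p.2).getD
        (2 * encode ((1 : ℕ), p.1, (0 : ℕ), p.2.take (p.2.length.unpair).1)) false) :=
      ((Primrec.list_getD false).to_comp).comp e2 e4
    obtain ⟨c, hc⟩ := red_of_fun (Computable.cond e1 (Computable.const (some 1))
      (Computable.cond e5 (Computable.const (some 0)) (Computable.const none)))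
    refine ⟨c, ?_⟩
    rintro Y hY
    obtain ⟨A, hA, rfl⟩ := id hY
    set Y := br G A with hYdef
    have hYF : Y ∈ F := hsub ⟨A, rfl⟩
    rw [hc]
    -- the facts
    have f1 : ∀ n s, hst r (seg Y s) n = true → W r Y n := fun n s h => (m1 r Y n).2 ⟨s, h⟩
    have f2 : ∀ n s, (dec c₀ (seg Y s)).getD (2 * encode ((1 : ℕ), n, (0 : ℕ),
        (seg Y s).take ((seg Y s).length.unpair).1)) false = true → ¬ W r Y n := by
      intro n s h
      obtain ⟨k, hk⟩ := b3 A s
      rw [hk, seg_len] at h
      have ht : (Nat.unpair s).1 ≤ s := Nat.unpair_left_le s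
      rw [take_seg' Y ht] at h
      have h2 : A (2 * encode ((1 : ℕ), n, (0 : ℕ), seg Y (Nat.unpair s).1)) = true := by
        by_cases hk2 : 2 * encode ((1 : ℕ), n, (0 : ℕ), seg Y (Nat.unpair s).1) < k
        · rwa [seg_getD _ _ _ hk2] at h
        · have : (seg A k).getD (2 * encode ((1 : ℕ), n, (0 : ℕ), seg Y (Nat.unpair s).1)) false =
              false := by
            rw [List.getD_eq_getElem?_getD, seg_get, if_neg hk2]
            rfl
          rw [this] at h
          exact absurd h (by decide)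
      rw [hA, hτ1] at h2
      exact h2 Y hYF (by rw [seg_len])
    have f3 : ∀ n, ¬ W r Y n → ∃ s, (dec c₀ (seg Y s)).getD (2 * encode ((1 : ℕ), n, (0 : ℕ),
        (seg Y s).take ((seg Y s).length.unpair).1)) false = true := by
      intro n hn
      have hz : le (zn n) Y := by
        refine le_trans' ?_ (le_br hG.toTr A)
        refine le_trans' ?_ (htA A hA)
        exact K4.2.2.2 τ (zn n) (fun k => encode ((0 : ℕ), n, k, ([] : Str))) (by fun_prop)
          (fun k => (hτ0 n k).symm)
      have h2 : ∃ t, ∀ Z ∈ F, seg Z t = seg Y t → ¬ W r Z n := by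
        by_contra hcon
        push Not at hcon
        exact hzn n Y ⟨hYF, hn, hcon⟩ hz
      obtain ⟨t, ht⟩ := h2
      set E := encode ((1 : ℕ), n, (0 : ℕ), seg Y t) with hE
      have h3 : τ E = true := (hτ1 n (seg Y t)).2 (by rw [seg_len]; exact ht)
      set t₁ := (G (seg A (2 * E + 1))).length with ht₁
      refine ⟨Nat.pair t t₁, ?_⟩
      rw [seg_len, Nat.unpair_pair]
      show (dec c₀ (seg Y (Nat.pair t t₁))).getD (2 * encode ((1 : ℕ), n, (0 : ℕ),
        (seg Y (Nat.pair t t₁)).take t)) false = true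
      rw [take_seg' Y (Nat.left_le_pair t t₁), ← hE]
      obtain ⟨k, hk⟩ := b3 A (Nat.pair t t₁)
      have h4 : dec c₀ (seg Y t₁) <+: dec c₀ (seg Y (Nat.pair t t₁)) :=
        d3 c₀ _ _ (G2_seg_le Y (Nat.right_le_pair t t₁))
      have h5 : dec c₀ (seg Y t₁) = seg A (2 * E + 1) := b4 A (2 * E + 1)
      rw [h5] at h4
      have h6 := h4.length_le
      rw [← hYdef] at hk
      rw [hk] at h6 ⊢
      rw [seg_len, seg_len] at h6
      rw [seg_getD _ _ _ (by omega), hA]
      exact h3
    intro n v
    by_cases hW : W r Y n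
    · have hch : (ch (W r Y) n).toNat = 1 := by
        unfold ch
        simp [hW]
      rw [hch]
      constructor
      · rintro ⟨s, hs⟩
        cases g1 : hst r (seg Y s) n with
        | true =>
          simp only [g1, cond_true] at hs
          exact (Option.some_inj.1 hs).symm
        | false =>
          simp only [g1, cond_false] at hs
          cases g2 : (dec c₀ (seg Y s)).getD (2 * encode ((1 : ℕ), n, (0 : ℕ),
              (seg Y s).take ((seg Y s).length.unpair).1)) false with
          | true => exact absurd hW (f2 n s g2)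
          | false =>
            simp only [g2, cond_false] at hs
            exact absurd hs (by simp)
      · rintro rfl
        obtain ⟨s, hs⟩ := (m1 r Y n).1 hW
        exact ⟨s, by simp only [hs, cond_true]⟩
    · have hch : (ch (W r Y) n).toNat = 0 := by
        unfold ch
        simp [hW]
      rw [hch]
      have g0 : ∀ s, hst r (seg Y s) n = false := fun s => by
        cases g1 : hst r (seg Y s) n with
        | true => exact absurd (f1 n s g1) hW
        | false => rfl
      constructor
      · rintro ⟨s, hs⟩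
        simp only [g0 s, cond_false] at hs
        cases g2 : (dec c₀ (seg Y s)).getD (2 * encode ((1 : ℕ), n, (0 : ℕ),
            (seg Y s).take ((seg Y s).length.unpair).1)) false with
        | true =>
          simp only [g2, cond_true] at hs
          exact (Option.some_inj.1 hs).symm
        | false =>
          simp only [g2, cond_false] at hs
          exact absurd hs (by simp)
      · rintro rfl
        obtain ⟨s, hs⟩ := f3 n hW
        exact ⟨s, by simp only [g0 s, hs, cond_false, cond_true]⟩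

/-- in each smaller closed set with members of cofinally many degrees some boundary of `W r` has
members of cofinally many degrees -/
def NT (r : Code) (F : Set (ℕ → Bool)) : Prop :=
  ∀ F' : Set (ℕ → Bool), F' ⊆ F → Clo F' → Cof F' → ∃ n, Cof (Bd r F' n)

theorem nt_or (r : Code) (F : Set (ℕ → Bool)) : NT r F ∨
    ∃ F' : Set (ℕ → Bool), F' ⊆ F ∧ Clo F' ∧ Cof F' ∧
      ∃ c : Code, ∀ Y ∈ F', Red c Y (ch (W r Y)) := by
  by_cases h : NT r F
  · exact Or.inl h
  · right
    unfold NT at h
    push Not at h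
    obtain ⟨F', h1, h2, h3, h4⟩ := h
    obtain ⟨F'', g1, g2, g3, g4⟩ := uniform r F' h2 h3 h4
    exact ⟨F'', g1.trans h1, g2, g3, g4⟩

theorem chain_of_nt {r : Code} {F : Set (ℕ → Bool)} (h : NT r F) :
    ∀ (m : ℕ) (F' : Set (ℕ → Bool)), F' ⊆ F → Clo F' → Cof F' →
      ∃ (e : ℕ → Code) (g : ℕ → Str → Str) (ν : ℕ → ℕ), Chain r m e g ν ∧ Rng (g m) ⊆ F' := by
  obtain ⟨B2a, B2b, B2c⟩ := B2 D1 B1
  intro m
  induction m with
  | zero =>
    intro F _ hcl hcof
    obtain ⟨c, G, hG⟩ := emb F hcl hcof
    exact ⟨fun _ => c, fun _ => G, fun _ => 0,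
      ⟨Computable.const c, Computable.const 0, fun q _ => hG.toTr,
        fun q hq => absurd hq (Nat.not_lt_zero q)⟩, B2b F c G hG hcl⟩
  | succ m ih =>
    intro F₁ hF₁ hcl hcof
    obtain ⟨c, G, hG⟩ := emb F₁ hcl hcof
    have hRsub : Rng G ⊆ F₁ := B2b F₁ c G hG hcl
    have hRcl : Clo (Rng G) := B2a c G hG.toTr
    have hRcof : Cof (Rng G) := B3 D1 B1 C2 K2 c G hG.toTr
    obtain ⟨n, hn⟩ := h (Rng G) (hRsub.trans hF₁) hRcl hRcof
    obtain ⟨e', g', ν', hch, hsub⟩ := ih (Bd r (Rng G) n)
      (fun X hX => hF₁ (hRsub hX.1)) (B2c r (Rng G) n hRcl) hn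
    refine ⟨fun q => if q ≤ m then e' q else c, fun q => if q ≤ m then g' q else G,
      fun q => if q ≤ m then ν' q else n, ⟨S2_ite m e' hch.ce c, S2_ite m ν' hch.cν n, ?_, ?_⟩, ?_⟩
    · intro q hq
      by_cases h : q ≤ m
      · simp only [h, if_true]
        exact hch.tr q h
      · simp only [h, if_false]
        exact hG.toTr
    · intro q hq
      have hq1 : q ≤ m := by omega
      by_cases h : q + 1 ≤ m
      · simp only [hq1, h, if_true]
        exact hch.sub q (by omega)
      · have hqm : q = m := by omega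
        subst hqm
        simp only [h, if_false, le_refl, if_true]
        exact hsub
    · have h : ¬ (m + 1 ≤ m) := by omega
      simp only [h, if_false]
      exact hRsub

end Pool.Agent.R616.DI
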